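import Pool.Agent.Helper67.NO.St5

/-!
Project NO, module DPO: polarization of the complex Hessian.
-/

set_option autoImplicit false

namespace Pool.Agent.Helper8.NO

open Pool.Agent.Helper67.NO
open Matrix
open scoped Matrix.Norms.Frobenius ContDiff Topology

theorem D2_eq {k : ℕ} {f : (Fin k → ℂ) → ℝ} (hf : ContDiff ℝ ∞ f) (v w : Fin k → ℂ) :
    D2 f v w = fderiv ℝ (fderiv ℝ f) 0 w v := by
  have h1 : ContDiff ℝ 1 (fderiv ℝ f) := hf.fderiv_right (by norm_cast)
  have hd : DifferentiableAt ℝ (fderiv ℝ f) 0 := (h1.differentiable (by norm_num)) 0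
  unfold D2
  have h2 := (hd.hasFDerivAt.clm_apply (hasFDerivAt_const v (0 : Fin k → ℂ))).fderiv
  rw [h2]
  simp

theorem D2_symm {k : ℕ} {f : (Fin k → ℂ) → ℝ} (hf : ContDiff ℝ ∞ f) (v w : Fin k → ℂ) :
    D2 f v w = D2 f w v := by
  rw [D2_eq hf, D2_eq hf]
  have h : IsSymmSndFDerivAt ℝ f 0 := by
    refine (hf.contDiffAt (x := 0)).isSymmSndFDerivAt ?_
    rw [minSmoothness_of_isRCLikeNormedField]
    norm_cast
  exact h w v

theorem D2_add_right {k : ℕ} {f : (Fin k → ℂ) → ℝ} (hf : ContDiff ℝ ∞ f) (v w w' : Fin k → ℂ) :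
    D2 f v (w + w') = D2 f v w + D2 f v w' := by
  rw [D2_eq hf, D2_eq hf, D2_eq hf, map_add]
  rfl

theorem D2_neg_right {k : ℕ} {f : (Fin k → ℂ) → ℝ} (hf : ContDiff ℝ ∞ f) (v w : Fin k → ℂ) :
    D2 f v (-w) = - D2 f v w := by
  rw [D2_eq hf, D2_eq hf, map_neg]
  rfl

theorem D2_add_left {k : ℕ} {f : (Fin k → ℂ) → ℝ} (hf : ContDiff ℝ ∞ f) (v v' w : Fin k → ℂ) :
    D2 f (v + v') w = D2 f v w + D2 f v' w := by
  rw [D2_symm hf, D2_add_right hf, D2_symm hf w v, D2_symm hf w v']

/-- the sesquilinear form -/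
noncomputable def SS {k : ℕ} (G : Matrix (Fin k) (Fin k) ℂ) (c d : Fin k → ℂ) : ℂ :=
  ∑ i, ∑ j, star (c i) * d j * G i j

theorem SS_add {k : ℕ} (G : Matrix (Fin k) (Fin k) ℂ) (c d : Fin k → ℂ) :
    SS G (c + d) (c + d) = SS G c c + SS G c d + (SS G d c + SS G d d) := by
  unfold SS
  simp only [← Finset.sum_add_distrib]
  refine Finset.sum_congr rfl fun i _ => Finset.sum_congr rfl fun j _ => ?_
  simp only [Pi.add_apply, star_add]
  ring

theorem SS_star {k : ℕ} (G : Matrix (Fin k) (Fin k) ℂ) (hG : G.IsHermitian) (c d : Fin k → ℂ) :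
    SS G d c = star (SS G c d) := by
  unfold SS
  simp only [star_sum, star_mul', star_star]
  rw [Finset.sum_comm]
  refine Finset.sum_congr rfl fun i _ => Finset.sum_congr rfl fun j _ => ?_
  rw [hG.apply j i]
  ring

theorem SS_single {k : ℕ} (G : Matrix (Fin k) (Fin k) ℂ) (i j : Fin k) (a b : ℂ) :
    SS G (Pi.single i a) (Pi.single j b) = star a * b * G i j := by
  unfold SS
  rw [Finset.sum_eq_single i, Finset.sum_eq_single j]
  · rw [Pi.single_eq_same, Pi.single_eq_same]
  · intro l _ hl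
    rw [Pi.single_eq_of_ne hl]; simp
  · intro h; exact absurd (Finset.mem_univ _) h
  · intro l _ hl
    refine Finset.sum_eq_zero fun m _ => ?_
    rw [Pi.single_eq_of_ne hl]; simp
  · intro h; exact absurd (Finset.mem_univ _) h

theorem pDPO : StDPO := by
  intro k f G hf hG hq
  have hq' : ∀ c : Fin k → ℂ, D2 f c c + D2 f (Complex.I • c) (Complex.I • c) =
      4 * (SS G c c).re := hq
  -- polarization
  have pol : ∀ c d : Fin k → ℂ, D2 f c d + D2 f (Complex.I • c) (Complex.I • d) =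
      4 * (SS G c d).re := by
    intro c d
    have h1 := hq' (c + d)
    rw [smul_add, D2_add_left hf, D2_add_right hf, D2_add_right hf, D2_add_left hf,
      D2_add_right hf, D2_add_right hf, SS_add, SS_star G hG c d, D2_symm hf d c,
      D2_symm hf (Complex.I • d) (Complex.I • c)] at h1
    have h2 := hq' c
    have h3 := hq' d
    have h4 : (star (SS G c d)).re = (SS G c d).re := Complex.conj_re _
    simp only [Complex.add_re] at h1
    rw [h4] at h1
    linarith
  have hI : ∀ i : Fin k, Complex.I • (Pi.single i (1 : ℂ) : Fin k → ℂ) = Pi.single i Complex.I := by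
    intro i
    rw [← Pi.single_smul, smul_eq_mul, mul_one]
  have hII : ∀ i : Fin k, Complex.I • (Pi.single i Complex.I : Fin k → ℂ) = -Pi.single i (1 : ℂ) := by
    intro i
    rw [← Pi.single_smul, smul_eq_mul, Complex.I_mul_I, Pi.single_neg]
  ext i j
  have h1 := pol (Pi.single i 1) (Pi.single j 1)
  have h2 := pol (Pi.single i 1) (Pi.single j Complex.I)
  rw [hI, hI, SS_single] at h1
  rw [hI, hII, SS_single, D2_neg_right hf] at h2
  have e1 : (star (1 : ℂ) * 1 * G i j) = G i j := by simp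
  have e2 : (star (1 : ℂ) * Complex.I * G i j).re = -(G i j).im := by simp
  rw [e1] at h1
  rw [e2] at h2
  unfold chess
  rw [h1, show D2 f (Pi.single i 1) (Pi.single j Complex.I) -
    D2 f (Pi.single i Complex.I) (Pi.single j 1) = 4 * -(G i j).im by linarith]
  rw [Matrix.transpose_apply, ← hG.apply j i]
  apply Complex.ext
  · simp
  · simp
    ring

end Pool.Agent.Helper8.NO
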