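import Pool.Agent.Helper67.NO.St1

/-!
Project NO, module LVL: the algebra of level preserving matrices.
-/

set_option autoImplicit false

namespace Pool.Agent.Helper8.NO

open Pool.Agent.Helper67.NO
open Matrix
open scoped Matrix.Norms.Frobenius ContDiff Topology

variable {κ : Type} [Fintype κ] [DecidableEq κ]

/-- level preserving means commuting with the diagonal matrix of levels -/
theorem lvl_iff (lev : κ → ℕ) (y : Matrix κ κ ℂ) :
    Lvl lev y ↔ Commute (diagonal (fun q => (lev q : ℂ))) y := by
  constructor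
  · intro h
    change diagonal (fun q => (lev q : ℂ)) * y = y * diagonal (fun q => (lev q : ℂ))
    ext p q
    rw [diagonal_mul, mul_diagonal]
    by_cases h0 : y p q = 0
    · rw [h0]; simp
    · rw [h p q h0]; ring
  · intro h p q h0
    have h1 := congrFun (congrFun (show diagonal (fun q => (lev q : ℂ)) * y =
      y * diagonal (fun q => (lev q : ℂ)) from h) p) q
    rw [diagonal_mul, mul_diagonal, mul_comm (y p q)] at h1
    have h2 := mul_right_cancel₀ h0 h1
    exact_mod_cast h2

theorem pLVL : StLVL := by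
  intro κ _ _ lev
  refine ⟨?_, ?_, ?_, ?_, ?_, ?_⟩
  · rw [lvl_iff]; exact Commute.one_right _
  · rw [lvl_iff]; exact Commute.zero_right _
  · intro x y hx hy
    rw [lvl_iff] at hx hy ⊢
    rw [lvl_iff]
    exact ⟨hx.add_right hy, hx.mul_right hy⟩
  · intro c x hx
    rw [lvl_iff] at hx ⊢
    exact hx.smul_right c
  · intro x hx
    refine ⟨?_, ?_, ?_⟩
    · rw [lvl_iff] at hx ⊢
      exact hx.neg_right
    · intro p q h
      have h1 : x q p ≠ 0 := by
        intro h0
        apply h
        rw [conjTranspose_apply, h0, star_zero]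
      exact (hx q p h1).symm
    · rw [lvl_iff] at hx ⊢
      exact hx.exp_right
  · intro x hu hx
    rw [lvl_iff] at hx ⊢
    obtain ⟨u, rfl⟩ := hu
    have h1 : (u : Matrix κ κ ℂ)⁻¹ = ((u⁻¹ : (Matrix κ κ ℂ)ˣ) : Matrix κ κ ℂ) := by
      rw [Matrix.coe_units_inv]
    rw [h1]
    exact hx.units_inv_right

end Pool.Agent.Helper8.NO
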